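import Mathlib

/-!
# Project GB (helper269), job GB-NUO: elementary part (helper223)
-/

set_option autoImplicit false
set_option linter.all false

open Finset

namespace Pool.Agent.Q223.GB

/-- an odd number has at most `√n` divisors greater than one -/
theorem card_div {n : ℕ} (hn : Odd n) : ((n.divisors.erase 1).card) ^ 2 ≤ n := by
  have hn0 : n ≠ 0 := by rintro rfl; simp at hn
  set s := Nat.sqrt n with hs
  have h1 : (n.divisors.filter (fun d => d * d ≤ n)).card ≤ (s + 1) / 2 := by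
    have : (n.divisors.filter (fun d => d * d ≤ n)).card ≤ (range ((s + 1) / 2)).card := by
      refine Finset.card_le_card_of_injOn (fun d => d / 2) ?_ ?_
      · intro d hd
        rw [Finset.mem_coe, mem_filter, Nat.mem_divisors] at hd
        have h2 : d ≤ s := Nat.le_sqrt.2 hd.2
        have h3 : Odd d := Odd.of_dvd_nat hn hd.1.1
        obtain ⟨e, rfl⟩ := h3
        simp only [Finset.coe_range, Set.mem_Iio]
        omega
      · intro d hd e he hde
        rw [Finset.mem_coe, mem_filter, Nat.mem_divisors] at hd he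
        have h3 : Odd d := Odd.of_dvd_nat hn hd.1.1
        have h4 : Odd e := Odd.of_dvd_nat hn he.1.1
        obtain ⟨a, rfl⟩ := h3
        obtain ⟨b, rfl⟩ := h4
        simp only at hde
        omega
    simpa using this
  have h2 : (n.divisors.filter (fun d => ¬ d * d ≤ n)).card ≤
      (n.divisors.filter (fun d => d * d ≤ n)).card := by
    refine Finset.card_le_card_of_injOn (fun d => n / d) ?_ ?_
    · intro d hd
      rw [Finset.mem_coe, mem_filter, Nat.mem_divisors] at hd ⊢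
      refine ⟨⟨Nat.div_dvd_of_dvd hd.1.1, hn0⟩, ?_⟩
      obtain ⟨e, he⟩ := hd.1.1
      have hd0 : 0 < d := Nat.pos_of_ne_zero (by rintro rfl; simp at he; exact hn0 he)
      have h3 : n / d = e := by rw [he]; exact Nat.mul_div_cancel_left e hd0
      show n / d * (n / d) ≤ n
      rw [h3]
      have h4 : e < d := by
        by_contra h
        push Not at h
        have : d * d ≤ d * e := Nat.mul_le_mul_left d h
        exact hd.2 (by rw [he]; exact this)
      rw [he]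
      exact Nat.mul_le_mul_right e h4.le
    · intro d hd e he hde
      rw [Finset.mem_coe, mem_filter, Nat.mem_divisors] at hd he
      simp only at hde
      have h5 : n / (n / d) = d := Nat.div_div_self hd.1.1 hn0
      have h6 : n / (n / e) = e := Nat.div_div_self he.1.1 hn0
      rw [← h5, hde, h6]
  have h3 := Finset.card_filter_add_card_filter_not (s := n.divisors) (fun d => d * d ≤ n)
  have h4 : (n.divisors.erase 1).card = n.divisors.card - 1 :=
    Finset.card_erase_of_mem (by rw [Nat.mem_divisors]; exact ⟨one_dvd n, hn0⟩)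
  have h5 : (n.divisors.erase 1).card ≤ s := by omega
  calc ((n.divisors.erase 1).card) ^ 2 ≤ s ^ 2 := Nat.pow_le_pow_left h5 2
    _ ≤ n := Nat.sqrt_le' n

/-- the order of two: basic facts -/
theorem ord_pos {r : ℕ} (hr : Odd r) (h1 : 1 < r) : 0 < orderOf (2 : ZMod r) := by
  have : NeZero r := ⟨by omega⟩
  have hu : IsUnit (2 : ZMod r) := by
    have := (ZMod.isUnit_iff_coprime 2 r).2 (Nat.coprime_two_left.2 hr)
    exact_mod_cast this
  exact orderOf_pos_iff.2 (isOfFinOrder_iff_pow_eq_one.2 (by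
    obtain ⟨u, hu⟩ := hu
    refine ⟨orderOf u, orderOf_pos u, ?_⟩
    rw [← hu, ← Units.val_pow_eq_pow_val, pow_orderOf_eq_one, Units.val_one]))

theorem dvd_iff (r e : ℕ) : r ∣ 2 ^ e - 1 ↔ orderOf (2 : ZMod r) ∣ e := by
  rw [orderOf_dvd_iff_pow_eq_one, ← ZMod.natCast_eq_zero_iff, Nat.cast_sub Nat.one_le_two_pow]
  push_cast
  exact sub_eq_zero

theorem dvd_iff' (r e : ℕ) : r ∣ 2 ^ e + 1 ↔ (2 : ZMod r) ^ e = -1 := by
  rw [← ZMod.natCast_eq_zero_iff]
  push_cast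
  exact add_eq_zero_iff_eq_neg

theorem un_ord {r m : ℕ} (hr : Odd r) (h1 : 1 < r) (h : r ∣ 2 ^ m + 1) :
    2 * (orderOf (2 : ZMod r) / 2) = orderOf (2 : ZMod r) ∧
      r ∣ 2 ^ (orderOf (2 : ZMod r) / 2) + 1 := by
  have h3 : 3 ≤ r := by
    obtain ⟨m, rfl⟩ := hr
    omega
  have hne : (1 : ZMod r) ≠ -1 := by
    intro e
    have : ((2 : ℕ) : ZMod r) = 0 := by
      push_cast
      calc (2 : ZMod r) = 1 + 1 := by norm_num
        _ = 1 + -1 := by rw [← e]
        _ = 0 := by ring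
    have := Nat.le_of_dvd (by norm_num) ((ZMod.natCast_eq_zero_iff _ _).1 this)
    omega
  set f := orderOf (2 : ZMod r) with hf
  have hf0 : 0 < f := ord_pos hr h1
  rw [dvd_iff'] at h
  have h4 : (2 : ZMod r) ^ (m % f) = -1 := by rw [← h, hf, pow_mod_orderOf]
  have hlt : m % f < f := Nat.mod_lt _ hf0
  have h5 : m % f ≠ 0 := by
    intro e
    rw [e, pow_zero] at h4
    exact hne h4
  have h6 : f ∣ 2 * (m % f) := by
    rw [hf, orderOf_dvd_iff_pow_eq_one, mul_comm, pow_mul, ← hf, h4]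
    norm_num
  obtain ⟨c, hc⟩ := h6
  have hc1 : c = 1 := by
    have h7 : c < 2 := by
      by_contra h
      push Not at h
      have : f * 2 ≤ f * c := Nat.mul_le_mul_left f h
      omega
    have h8 : c ≠ 0 := by
      rintro rfl
      omega
    omega
  subst hc1
  have h9 : f / 2 = m % f := by omega
  rw [h9, dvd_iff']
  exact ⟨by omega, h4⟩

/-- the numbers of orders of the second kind -/
def Nn (f : ℕ) : ℕ := ((range (2 ^ f)).filter fun r => 1 < r ∧ r ∣ 2 ^ f - 1 ∧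
  (∀ e ∈ range f, 0 < e → ¬ r ∣ 2 ^ e - 1) ∧ ¬ r ∣ 2 ^ (f / 2) + 1).card

/-- the numbers of orders of the first kind -/
def Nu (g : ℕ) : ℕ := ((range (2 ^ g + 2)).filter fun r => 1 < r ∧ r ∣ 2 ^ g + 1 ∧
  (∀ e ∈ range (2 * g), 0 < e → ¬ r ∣ 2 ^ e - 1)).card

/-- table -/
def Tn : ℕ → ℕ := fun f => ([0, 0, 0, 1, 1, 1, 2, 1, 3, 2, 3, 3] : List ℕ).getD f 0

/-- table -/
def Tu : ℕ → ℕ := fun f => ([0, 1, 1, 1, 1, 2, 2, 2, 1, 5, 4, 2] : List ℕ).getD f 0

theorem Nn_eq : ∀ f ∈ range 12, 2 ≤ f → Nn f ≤ Tn f := by decide +kernel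

theorem Nu_eq : ∀ f ∈ range 12, 1 ≤ f → Nu f ≤ Tu f := by decide +kernel

/-! ### the products -/

theorem sub_le_prod {f : ℕ → ℝ} (h0 : ∀ i, 0 ≤ f i) (h1 : ∀ i, f i ≤ 1) (s : Finset ℕ) :
    1 - ∑ r ∈ s, f r ≤ ∏ r ∈ s, (1 - f r) := by
  classical
  induction s using Finset.induction_on with
  | empty => simp
  | insert a s ha ih =>
    rw [Finset.sum_insert ha, Finset.prod_insert ha]
    have h3 : ∏ r ∈ s, (1 - f r) ≤ 1 :=
      Finset.prod_le_one (fun r _ => by linarith [h1 r]) (fun r _ => by linarith [h0 r])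
    have h4 := h0 a
    have h5 := h1 a
    nlinarith [mul_nonneg h4 (sub_nonneg.2 h3)]

theorem geo_le (K : ℕ) : ∑ j ∈ range K, 1.0002 * (0.7072 : ℝ) ^ (12 + j) ≤ 0.0536 := by
  have h1 : ∑ j ∈ range K, 1.0002 * (0.7072 : ℝ) ^ (12 + j) =
      1.0002 * (0.7072 : ℝ) ^ 12 * ∑ j ∈ range K, (0.7072 : ℝ) ^ j := by
    rw [mul_sum]
    refine sum_congr rfl fun j _ => ?_
    rw [pow_add]
    ring
  have h2 := geom_sum_mul_neg (0.7072 : ℝ) K
  have h3 : (0 : ℝ) < 0.7072 ^ K := by positivity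
  have h4 : ∑ j ∈ range K, (0.7072 : ℝ) ^ j ≤ 1 / 0.2928 := by
    rw [le_div_iff₀ (by norm_num)]
    have h5 : (1 : ℝ) - 0.7072 = 0.2928 := by norm_num
    rw [h5] at h2
    rw [h2]
    linarith
  rw [h1]
  calc 1.0002 * (0.7072 : ℝ) ^ 12 * ∑ j ∈ range K, (0.7072 : ℝ) ^ j ≤
        1.0002 * (0.7072 : ℝ) ^ 12 * (1 / 0.2928) :=
        mul_le_mul_of_nonneg_left h4 (by positivity)
    _ ≤ 0.0536 := by norm_num

theorem fib (c : ℕ → ℝ) (h : ℕ → ℕ) (s : Finset ℕ) (N : ℕ → ℕ)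
    (c0 : ∀ i, 0 ≤ c i) (c1 : ∀ i, c i ≤ 1)
    (hN : ∀ i < 12, (s.filter fun r => h r = i).card ≤ N i)
    (hT : ∀ i, 12 ≤ i → ((s.filter fun r => h r = i).card : ℝ) * (1 - c i) ≤ 1.0002 * 0.7072 ^ i) :
    (∏ i ∈ range 12, c i ^ N i) * (1 - 0.0536) ≤ ∏ r ∈ s, c (h r) := by
  set K := s.sup h + 1 with hK
  have e : ∏ r ∈ s, c (h r) = ∏ i ∈ range (12 + K), c i ^ (s.filter fun r => h r = i).card := by
    rw [← Finset.prod_fiberwise_of_maps_to (s := s) (t := range (12 + K)) (g := h)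
      (fun r hr => by
        rw [mem_range]
        have := Finset.le_sup (f := h) hr
        omega)]
    refine prod_congr rfl fun i _ => ?_
    rw [prod_congr rfl (g := fun _ => c i) (fun r hr => by rw [(mem_filter.1 hr).2]), prod_const]
  rw [e, prod_range_add]
  refine mul_le_mul ?_ ?_ (by norm_num) (prod_nonneg fun i _ => pow_nonneg (c0 i) _)
  · exact prod_le_prod (fun i _ => pow_nonneg (c0 i) _)
      fun i hi => pow_le_pow_of_le_one (c0 i) (c1 i) (hN i (mem_range.1 hi))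
  · have h1 : ∀ j, 1.0002 * (0.7072 : ℝ) ^ (12 + j) ≤ 1 := by
      intro j
      rw [pow_add]
      have h2 : (0.7072 : ℝ) ^ j ≤ 1 := pow_le_one₀ (by norm_num) (by norm_num)
      have h3 : 1.0002 * (0.7072 : ℝ) ^ 12 ≤ 1 := by norm_num
      have h4 : (0 : ℝ) ≤ 1.0002 * (0.7072 : ℝ) ^ 12 := by norm_num
      calc 1.0002 * ((0.7072 : ℝ) ^ 12 * (0.7072 : ℝ) ^ j) =
            (1.0002 * (0.7072 : ℝ) ^ 12) * (0.7072 : ℝ) ^ j := by ring
        _ ≤ 1 * 1 := mul_le_mul h3 h2 (by positivity) (by norm_num)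
        _ = 1 := by norm_num
    have h2 := sub_le_prod (f := fun j => 1.0002 * (0.7072 : ℝ) ^ (12 + j))
      (fun j => by positivity) h1 (range K)
    have h3 := geo_le K
    refine (show (1 : ℝ) - 0.0536 ≤ 1 - ∑ j ∈ range K, 1.0002 * (0.7072 : ℝ) ^ (12 + j) by linarith).trans
      (h2.trans (prod_le_prod (fun j _ => by linarith [h1 j]) fun j _ => ?_))
    have h4 := one_add_mul_le_pow (a := c (12 + j) - 1) (by linarith [c0 (12 + j)])
      (s.filter fun r => h r = 12 + j).card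
    have h5 := hT (12 + j) (by omega)
    have e1 : 1 + (c (12 + j) - 1) = c (12 + j) := by ring
    rw [e1] at h4
    show 1 - 1.0002 * (0.7072 : ℝ) ^ (12 + j) ≤ _
    nlinarith

/-- the tail in the second case -/
theorem tail_n {i n : ℕ} (hi : 12 ≤ i) (hn : n ^ 2 ≤ 2 ^ i - 1) :
    (n : ℝ) * (1 / ((2 : ℝ) ^ i - 1)) ≤ 1.0002 * 0.7072 ^ i := by
  have hX : (4096 : ℝ) ≤ 2 ^ i := by
    calc (4096 : ℝ) = 2 ^ 12 := by norm_num
      _ ≤ 2 ^ i := pow_le_pow_right₀ (by norm_num) hi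
  have hn' : (n : ℝ) ^ 2 ≤ 2 ^ i - 1 := by
    have h1 : n ^ 2 + 1 ≤ 2 ^ i := by
      have : 1 ≤ 2 ^ i := Nat.one_le_two_pow
      omega
    have h2 : ((n ^ 2 + 1 : ℕ) : ℝ) ≤ ((2 ^ i : ℕ) : ℝ) := by exact_mod_cast h1
    push_cast at h2
    linarith
  set X : ℝ := 2 ^ i with hXd
  have hX1 : 0 < X - 1 := by linarith
  have ht : (1.0002 * (0.7072 : ℝ) ^ i) ^ 2 = 1.0002 ^ 2 * (0.7072 ^ 2) ^ i := by
    rw [mul_pow, ← pow_mul, ← pow_mul, mul_comm i 2]
  have ht2 : 1 / X ≤ ((0.7072 : ℝ) ^ 2) ^ i := by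
    have : (1 / 2 : ℝ) ^ i ≤ ((0.7072 : ℝ) ^ 2) ^ i :=
      pow_le_pow_left₀ (by norm_num) (by norm_num) i
    refine le_trans (le_of_eq ?_) this
    rw [hXd, one_div_pow]
  refine le_of_pow_le_pow_left₀ (n := 2) (by norm_num) (by positivity) ?_
  rw [ht]
  have h3 : ((n : ℝ) * (1 / (X - 1))) ^ 2 ≤ 1 / (X - 1) := by
    rw [mul_pow, one_div, inv_pow, ← div_eq_mul_inv, div_le_iff₀ (by positivity), pow_two (X - 1),
      ← mul_assoc, inv_mul_cancel₀ hX1.ne', one_mul]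
    exact hn'
  have h4 : 1 / (X - 1) ≤ 1.0002 ^ 2 * (1 / X) := by
    rw [mul_one_div, div_le_div_iff₀ hX1 (by linarith)]
    nlinarith
  refine h3.trans (h4.trans ?_)
  exact mul_le_mul_of_nonneg_left ht2 (by norm_num)

/-- the tail in the first case -/
theorem tail_u {i n : ℕ} (hi : 12 ≤ i) (hn : n ^ 2 ≤ 2 ^ i + 1) :
    (n : ℝ) * ((2 : ℝ) ^ i / (((2 : ℝ) ^ i) ^ 2 - 1)) ≤ 1.0002 * 0.7072 ^ i := by
  have hX : (4096 : ℝ) ≤ 2 ^ i := by
    calc (4096 : ℝ) = 2 ^ 12 := by norm_num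
      _ ≤ 2 ^ i := pow_le_pow_right₀ (by norm_num) hi
  have hn' : (n : ℝ) ^ 2 ≤ 2 ^ i + 1 := by
    have h2 : ((n ^ 2 : ℕ) : ℝ) ≤ ((2 ^ i + 1 : ℕ) : ℝ) := by exact_mod_cast hn
    push_cast at h2
    linarith
  set X : ℝ := 2 ^ i with hXd
  have hX1 : 0 < X - 1 := by linarith
  have hX2 : 0 < X + 1 := by linarith
  have hX3 : 0 < X ^ 2 - 1 := by nlinarith
  have ht : (1.0002 * (0.7072 : ℝ) ^ i) ^ 2 = 1.0002 ^ 2 * (0.7072 ^ 2) ^ i := by
    rw [mul_pow, ← pow_mul, ← pow_mul, mul_comm i 2]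
  have ht2 : 1 / X ≤ ((0.7072 : ℝ) ^ 2) ^ i := by
    have : (1 / 2 : ℝ) ^ i ≤ ((0.7072 : ℝ) ^ 2) ^ i :=
      pow_le_pow_left₀ (by norm_num) (by norm_num) i
    refine le_trans (le_of_eq ?_) this
    rw [hXd, one_div_pow]
  refine le_of_pow_le_pow_left₀ (n := 2) (by norm_num) (by positivity) ?_
  rw [ht]
  have h3 : ((n : ℝ) * (X / (X ^ 2 - 1))) ^ 2 ≤ X ^ 2 / ((X + 1) * (X - 1) ^ 2) := by
    rw [mul_pow, div_pow]
    have e : X ^ 2 / ((X + 1) * (X - 1) ^ 2) = (X + 1) * (X ^ 2 / (X ^ 2 - 1) ^ 2) := by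
      have e1 : X ^ 2 - 1 = (X + 1) * (X - 1) := by ring
      rw [e1]
      field_simp
    rw [e]
    exact mul_le_mul_of_nonneg_right hn' (by positivity)
  have h4 : X ^ 2 / ((X + 1) * (X - 1) ^ 2) ≤ 1.0002 ^ 2 * (1 / X) := by
    rw [mul_one_div, div_le_div_iff₀ (by positivity) (by linarith)]
    nlinarith [mul_pos hX1 hX2, mul_pos (mul_pos hX1 hX2) hX1,
      mul_nonneg (mul_nonneg (sq_nonneg X) (sub_nonneg.2 hX)) (by norm_num : (0 : ℝ) ≤ 1)]
  refine h3.trans (h4.trans ?_)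
  exact mul_le_mul_of_nonneg_left ht2 (by norm_num)

/-- the bounds in the second case -/
noncomputable def an (i : ℕ) : ℝ := 1 - 1 / ((2 : ℝ) ^ i - 1)

/-- the bounds in the first case -/
noncomputable def bu (i : ℕ) : ℝ :=
  if i = 1 then 0.5686 else if i = 2 then 0.7868 else if i = 3 then 0.887 else
    1 - (2 : ℝ) ^ i / (((2 : ℝ) ^ i) ^ 2 - 1)

theorem an_mem (i : ℕ) : 0 ≤ an i ∧ an i ≤ 1 := by
  unfold an
  rcases i with - | - | i
  · norm_num
  · norm_num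
  · have hX : (2 : ℝ) ≤ 2 ^ (i + 1 + 1) := by
      calc (2 : ℝ) = 2 ^ 1 := by norm_num
        _ ≤ 2 ^ (i + 1 + 1) := pow_le_pow_right₀ (by norm_num) (by omega)
    have h1 : 1 / ((2 : ℝ) ^ (i + 1 + 1) - 1) ≤ 1 := by
      rw [div_le_one (by linarith)]
      linarith
    have h2 : 0 ≤ 1 / ((2 : ℝ) ^ (i + 1 + 1) - 1) := by
      apply div_nonneg (by norm_num)
      linarith
    constructor <;> linarith

theorem bu_mem (i : ℕ) : 0 ≤ bu i ∧ bu i ≤ 1 := by
  unfold bu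
  split_ifs with h1 h2 h3
  · norm_num
  · norm_num
  · norm_num
  · rcases i with - | i
    · norm_num
    · have hX : (4 : ℝ) ≤ 2 ^ (i + 1) := by
        calc (4 : ℝ) = 2 ^ 2 := by norm_num
          _ ≤ 2 ^ (i + 1) := pow_le_pow_right₀ (by norm_num) (by omega)
      set X : ℝ := 2 ^ (i + 1) with hXd
      have h5 : 0 < X ^ 2 - 1 := by nlinarith
      have h6 : X / (X ^ 2 - 1) ≤ 1 := by
        rw [div_le_one h5]
        nlinarith
      have h7 : 0 ≤ X / (X ^ 2 - 1) := by positivity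
      constructor <;> linarith

theorem main_num : (0.21 : ℝ) ≤ ((∏ i ∈ range 12, an i ^ Tn i) * (1 - 0.0536)) *
    ((∏ i ∈ range 12, bu i ^ Tu i) * (1 - 0.0536)) := by
  simp only [prod_range_succ, prod_range_zero, an, bu, Tn, Tu]
  norm_num

end Pool.Agent.Q223.GB
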