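import Pool.Agent.Q269.GB.St
import Pool.Agent.Q92.GL.Num
import Pool.Agent.Q224.GL.TPR
import Pool.Agent.Q223.GB.Num

/-!
# Project GB (helper269), job GB-NUO (helper223): the numerical bound for all the odd orders
-/

set_option autoImplicit false
set_option linter.all false

open scoped Classical
open Finset

namespace Pool.Agent.Q223.GB

open Pool.Agent.Q269.GB
open Pool.Agent.Q269.GL (lawR lawU lawN rp)
open Pool.Agent.Q269.GR (Un)
open Pool.Agent.Q92.GL (gp Pp inv_gp_ge)

theorem lawU_gp (Q : ℝ) : lawU Q 0 = (gp Q⁻¹)⁻¹ := by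
  unfold lawU gp
  simp

theorem bu_le {g : ℕ} (hg : 1 ≤ g) : bu g ≤ lawU (2 ^ g) 0 := by
  rw [lawU_gp]
  have hX : (2 : ℝ) ≤ 2 ^ g := by
    calc (2 : ℝ) = 2 ^ 1 := by norm_num
      _ ≤ 2 ^ g := pow_le_pow_right₀ (by norm_num) hg
  have hx0 : (0 : ℝ) < (2 ^ g)⁻¹ := by positivity
  have hx1 : ((2 : ℝ) ^ g)⁻¹ < 1 := inv_lt_one_of_one_lt₀ (by linarith)
  unfold bu
  split_ifs with h1 h2 h3
  · subst h1
    refine le_trans ?_ (inv_gp_ge hx0 hx1 3)
    norm_num [Pp, prod_range_succ]
  · subst h2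
    refine le_trans ?_ (inv_gp_ge hx0 hx1 2)
    norm_num [Pp, prod_range_succ]
  · subst h3
    refine le_trans ?_ (inv_gp_ge hx0 hx1 1)
    norm_num [Pp, prod_range_succ]
  · refine le_trans (le_of_eq ?_) (inv_gp_ge hx0 hx1 0)
    set X : ℝ := 2 ^ g with hXd
    have hX0 : X ≠ 0 := by linarith
    have h5 : X ^ 2 - 1 ≠ 0 := by nlinarith
    have e1 : Pp X⁻¹ 0 = 1 := by simp [Pp]
    rw [e1, inv_one, one_mul]
    have e2 : X⁻¹ ^ (2 * 0 + 1) / (1 - X⁻¹ ^ 2) = X / (X ^ 2 - 1) := by
      have h6 : 1 - X⁻¹ ^ 2 = (X ^ 2 - 1) / X ^ 2 := by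
        field_simp
      rw [h6, mul_zero, zero_add, pow_one]
      field_simp
    rw [e2]

theorem an_le {f : ℕ} (hf : 1 ≤ f) : an f ≤ lawN (2 ^ f) 0 := by
  have hX : (2 : ℝ) ≤ 2 ^ f := by
    calc (2 : ℝ) = 2 ^ 1 := by norm_num
      _ ≤ 2 ^ f := pow_le_pow_right₀ (by norm_num) hf
  unfold lawN an
  set X : ℝ := 2 ^ f with hXd
  obtain ⟨x, hx⟩ : ∃ x, x = X⁻¹ := ⟨_, rfl⟩
  rw [← hx]
  have hx0 : 0 < x := by rw [hx]; positivity
  have hx1 : x < 1 := by rw [hx]; exact inv_lt_one_of_one_lt₀ (by linarith)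
  have hg := hasSum_geometric_of_lt_one hx0.le hx1
  have hs : HasSum (fun i : ℕ => x ^ (i + 1)) (x * (1 - x)⁻¹) := by
    refine (hg.mul_left x).congr_fun ?_ |> fun h => h
    intro i
    rw [pow_succ]
    ring
  have h1 := Pool.Agent.Q224.GL.one_sub_le_tprod (f := fun i : ℕ => x ^ (i + 1))
    (fun i => by positivity) (fun i => pow_le_one₀ hx0.le hx1.le) hs.summable
  rw [hs.tsum_eq] at h1
  have e : (∏' i : ℕ, (1 - x ^ (i + 1))) * x ^ 0 ^ 2 / (∏ i ∈ range 0, (1 - x ^ (i + 1))) ^ 2 =
      ∏' i : ℕ, (1 - x ^ (i + 1)) := by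
    simp
  rw [e]
  refine le_trans (le_of_eq ?_) h1
  have hX1 : X - 1 ≠ 0 := by linarith
  have hX0 : X ≠ 0 := by linarith
  have e3 : 1 - x = (X - 1) / X := by
    rw [hx]
    field_simp
  rw [e3, hx]
  field_simp

/-- the order -/
noncomputable def fo (r : ℕ) : ℕ := orderOf (2 : ZMod r)

theorem lawR_ge {r : ℕ} (hr : Odd r) (h1 : 1 < r) :
    (if Un r then bu (fo r / 2) else an (fo r)) ≤ lawR r 0 := by
  have h2 := ord_pos hr h1
  unfold lawR
  by_cases hU : Un r
  · rw [if_pos hU, if_pos hU]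
    obtain ⟨m, hm⟩ := hU
    have h3 := (un_ord hr h1 hm).1
    exact bu_le (by unfold fo; omega)
  · rw [if_neg hU, if_neg hU]
    exact an_le h2

theorem prod_ge (h1 : S_TPS) (y : ℕ) :
    (0.21 : ℝ) ≤ ∏ r ∈ (range (y + 1)).filter (To Set.univ), pu r := by
  set s := (range (y + 1)).filter (To Set.univ) with hsd
  have hs : ∀ r ∈ s, Odd r ∧ 1 < r := by
    intro r hr
    rw [hsd, mem_filter] at hr
    exact hr.2.2
  have h2 : ∏ r ∈ s, (if Un r then bu (fo r / 2) else an (fo r)) ≤ ∏ r ∈ s, pu r := by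
    refine prod_le_prod (fun r _ => ?_) fun r hr => ?_
    · split_ifs
      · exact (bu_mem _).1
      · exact (an_mem _).1
    · exact (lawR_ge (hs r hr).1 (hs r hr).2).trans (h1.1 r (hs r hr).1 (hs r hr).2).2.2.1
  refine le_trans ?_ h2
  rw [prod_ite, mul_comm]
  refine main_num.trans (mul_le_mul ?_ ?_ ?_ (prod_nonneg fun r _ => (an_mem _).1))
  · refine fib an fo _ Tn (fun i => (an_mem i).1) (fun i => (an_mem i).2) (fun i hi => ?_)
      (fun i hi => ?_)
    · rcases Nat.lt_or_ge i 2 with hi2 | hi2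
      · rw [card_eq_zero.2]
        · exact Nat.zero_le _
        · rw [filter_eq_empty_iff]
          intro r hr e
          rw [mem_filter] at hr
          have h3 := ord_pos (hs r hr.1).1 (hs r hr.1).2
          have h4 : r ∣ 2 ^ 1 - 1 := (dvd_iff r 1).2 (by
            have : orderOf (2 : ZMod r) = 1 := by
              unfold fo at e
              omega
            rw [this])
          have := Nat.le_of_dvd (by norm_num) h4
          have := (hs r hr.1).2
          omega
      · refine le_trans ?_ (Nn_eq i (mem_range.2 hi) hi2)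
        unfold Nn
        refine card_le_card fun r hr => ?_
        rw [mem_filter, mem_filter] at hr
        have ho := (hs r hr.1.1)
        have h3 : r ∣ 2 ^ i - 1 := (dvd_iff r i).2 (by rw [← hr.2]; exact dvd_rfl)
        rw [mem_filter, mem_range]
        refine ⟨?_, ho.2, h3, ?_, ?_⟩
        · have h5 : 2 ^ 1 ≤ 2 ^ i := Nat.pow_le_pow_right (by norm_num) (by omega)
          have := Nat.le_of_dvd (by omega) h3
          omega
        · intro e he he0 hd
          have h6 := Nat.le_of_dvd he0 ((dvd_iff r e).1 hd)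
          rw [mem_range] at he
          have h7 : orderOf (2 : ZMod r) = i := hr.2
          omega
        · intro hd
          exact hr.1.2 ⟨_, hd⟩
    · have hc : (((s.filter (fun r => ¬ Un r)).filter (fun r => fo r = i)).card) ^ 2 ≤ 2 ^ i - 1 := by
        refine le_trans (Nat.pow_le_pow_left (card_le_card (t := (2 ^ i - 1).divisors.erase 1) ?_) 2)
          (card_div ?_)
        · intro r hr
          rw [mem_filter, mem_filter] at hr
          have ho := (hs r hr.1.1)
          have h3 : r ∣ 2 ^ i - 1 := (dvd_iff r i).2 (by rw [← hr.2]; exact dvd_rfl)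
          have h5 : 2 ^ 1 ≤ 2 ^ i := Nat.pow_le_pow_right (by norm_num) (by omega)
          rw [mem_erase, Nat.mem_divisors]
          exact ⟨by omega, h3, by omega⟩
        · have : Even (2 ^ i) := (Nat.even_pow.2 ⟨even_two, by omega⟩)
          exact Nat.Even.sub_odd Nat.one_le_two_pow this odd_one
      have e : 1 - an i = 1 / ((2 : ℝ) ^ i - 1) := by unfold an; ring
      rw [e]
      exact tail_n hi hc
  · refine fib bu (fun r => fo r / 2) _ Tu (fun i => (bu_mem i).1) (fun i => (bu_mem i).2)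
      (fun i hi => ?_) (fun i hi => ?_)
    · rcases Nat.lt_or_ge i 1 with hi2 | hi2
      · rw [card_eq_zero.2]
        · exact Nat.zero_le _
        · rw [filter_eq_empty_iff]
          intro r hr e
          rw [mem_filter] at hr
          have ho := (hs r hr.1)
          obtain ⟨m, hm⟩ := hr.2
          have h3 := (un_ord ho.1 ho.2 hm).1
          have h4 := ord_pos ho.1 ho.2
          unfold fo at e
          omega
      · refine le_trans ?_ (Nu_eq i (mem_range.2 hi) hi2)
        unfold Nu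
        refine card_le_card fun r hr => ?_
        rw [mem_filter, mem_filter] at hr
        have ho := (hs r hr.1.1)
        obtain ⟨m, hm⟩ := hr.1.2
        obtain ⟨h3, h4⟩ := un_ord ho.1 ho.2 hm
        have h5 : orderOf (2 : ZMod r) / 2 = i := hr.2
        rw [h5] at h3 h4
        rw [mem_filter, mem_range]
        refine ⟨?_, ho.2, h4, ?_⟩
        · have := Nat.le_of_dvd (Nat.succ_pos _) h4
          omega
        · intro e he he0 hd
          have h6 := Nat.le_of_dvd he0 ((dvd_iff r e).1 hd)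
          rw [mem_range] at he
          omega
    · have hc : (((s.filter (fun r => Un r)).filter (fun r => fo r / 2 = i)).card) ^ 2 ≤ 2 ^ i + 1 := by
        refine le_trans (Nat.pow_le_pow_left (card_le_card (t := (2 ^ i + 1).divisors.erase 1) ?_) 2)
          (card_div ?_)
        · intro r hr
          rw [mem_filter, mem_filter] at hr
          have ho := (hs r hr.1.1)
          obtain ⟨m, hm⟩ := hr.1.2
          obtain ⟨h3, h4⟩ := un_ord ho.1 ho.2 hm
          have h5 : orderOf (2 : ZMod r) / 2 = i := hr.2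
          rw [h5] at h4
          rw [mem_erase, Nat.mem_divisors]
          exact ⟨by omega, h4, Nat.succ_ne_zero _⟩
        · have : Even (2 ^ i) := (Nat.even_pow.2 ⟨even_two, by omega⟩)
          exact this.add_one
      have e : 1 - bu i = (2 : ℝ) ^ i / (((2 : ℝ) ^ i) ^ 2 - 1) := by
        unfold bu
        rw [if_neg (by omega), if_neg (by omega), if_neg (by omega)]
        ring
      rw [e]
      exact tail_u hi hc
  · refine mul_nonneg (prod_nonneg fun i _ => pow_nonneg (bu_mem i).1 _) (by norm_num)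

/-- **JOB GB-NUO** -/
theorem t_NUO (h1 : S_TPS) : S_NUO := by
  unfold S_NUO
  have h2 := (h1.2 Set.univ).2
  have h3 : (0.21 : ℝ) ≤ PU Set.univ := ge_of_tendsto' h2 fun y => prod_ge h1 y
  refine lt_of_lt_of_le ?_ h3
  norm_num

end Pool.Agent.Q223.GB
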